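import Mathlib
import Pool.Agent.H32.Dixon

set_option autoImplicit false

namespace Pool.Agent.Results.MP_a65cb7_co.Dense

/-- The framework `(G, p)` in the plane is rigid: near `p`, equivalent realizations are
congruent. -/
def Rigid {W : Type} (G : SimpleGraph W) (p : W → EuclideanSpace ℝ (Fin 2)) : Prop :=
  ∃ U ∈ nhds p, ∀ r ∈ U, (∀ u v, G.Adj u v → dist (r u) (r v) = dist (p u) (p v)) →
    ∀ u v, dist (r u) (r v) = dist (p u) (p v)

theorem result (n₀ : ℕ) : ∃ n ≥ n₀, ∃ (G : SimpleGraph (Fin n))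
    (p : Fin n → EuclideanSpace ℝ (Fin 2)),
    n ^ 2 ≤ 8 * G.edgeSet.ncard ∧ Function.Injective p ∧
    (∀ v, ¬ Collinear ℝ (p '' G.neighborSet v)) ∧
    ∀ G' : G.Subgraph, 3 ≤ G'.verts.ncard → ¬ Rigid G'.coe (fun v => p v.1) := by
  open Pool.Agent.H32.Dixon in
  let e : Fin (4 * (n₀ + 2)) ≃ V (n₀ + 2) := Fintype.equivOfCardEq (by simp [V]; ring)
  refine ⟨4 * (n₀ + 2), by omega, (G (n₀ + 2)).comap e, q (n₀ + 2) 0 0 ∘ e, ?_,
    (q_inj _).comp e.injective, fun v => ?_, ?_⟩
  · have h := Nat.card_congr (SimpleGraph.Iso.comap e (G (n₀ + 2))).mapEdgeSet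
    rw [Nat.card_coe_set_eq, Nat.card_coe_set_eq] at h
    have := edges (n₀ + 2)
    rw [h]
    nlinarith
  · have : e '' ((G (n₀ + 2)).comap e).neighborSet v = (G (n₀ + 2)).neighborSet (e v) :=
      e.surjective.image_preimage ((G (n₀ + 2)).neighborSet (e v))
    rw [Set.image_comp, this]
    exact noncol n₀ _
  · rintro G' h3 ⟨U, hU, h⟩
    refine nonrigid (n₀ + 2) (fun v : G'.verts => e v.1) ?_ U hU G'.coe.Adj
      (fun u v huv => G'.adj_sub huv) h
    have : (Set.range fun v : G'.verts => e v.1) = e '' G'.verts := by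
      rw [Set.image_eq_range]
    rw [this, Set.ncard_image_of_injective _ e.injective]
    exact h3

end Pool.Agent.Results.MP_a65cb7_co.Dense
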